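import Pool.Agent.Helper32.LT.V2

/-!
PROJECT LT2 (MP_274814_nt), BLOCK N: pairs of distinct Fermat types of level `d` which differ at few
places. `Good d n`: two distinct types of level `d` differ at `r` places, `n r < φ(d) / 2`.
-/

set_option autoImplicit false

namespace Pool.Agent.Helper32.LU

open Finset Pool.Agent.Helper44.LT

/-- admissible exponents: `y^q = x^a (1-x)^b`, `a + b` prime to `q` -/
def Pr (q a b : ℕ) : Prop := ¬ q ∣ a ∧ ¬ q ∣ b ∧ Nat.Coprime (a + b) q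

instance (q a b : ℕ) : Decidable (Pr q a b) := inferInstanceAs (Decidable (_ ∧ _ ∧ _))

/-- two distinct types of level `d` differ at `r ≥ 1` places and `n r < φ(d) / 2` -/
def Good (d n : ℕ) : Prop :=
  ∃ a b c e : ℕ, Pr d a b ∧ Pr d c e ∧ 0 < (PU d a b \ PU d c e).card ∧
    n * (PU d a b \ PU d c e).card < d.totient / 2

theorem ne_of_card {d a b c e : ℕ} (h : 0 < (PU d a b \ PU d c e).card) :
    PU d a b ≠ PU d c e := by
  intro h1
  rw [h1, Finset.sdiff_self, Finset.card_empty] at h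
  exact lt_irrefl 0 h

theorem Good.mono {d n m : ℕ} (h : Good d n) (hm : m ≤ n) : Good d m := by
  obtain ⟨a, b, c, e, h1, h2, h3, h4⟩ := h
  exact ⟨a, b, c, e, h1, h2, h3, lt_of_le_of_lt (Nat.mul_le_mul_right _ hm) h4⟩

/-- check of one entry of the table -/
def ck (x : ℕ × ℕ × ℕ × ℕ × ℕ × ℕ) : Bool :=
  decide (Pr x.1 x.2.1 x.2.2.1 ∧ Pr x.1 x.2.2.2.1 x.2.2.2.2.1 ∧
    0 < (PU x.1 x.2.1 x.2.2.1 \ PU x.1 x.2.2.2.1 x.2.2.2.2.1).card ∧
    x.2.2.2.2.2 * (PU x.1 x.2.1 x.2.2.1 \ PU x.1 x.2.2.2.1 x.2.2.2.2.1).card < x.1.totient / 2)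

theorem good_of_ck {d a b c e n : ℕ} (h : ck (d, a, b, c, e, n) = true) : Good d n := by
  rw [ck, decide_eq_true_eq] at h
  exact ⟨a, b, c, e, h⟩

/-- the entries `d, a, b, c, e, n` -/
def T1 : List (ℕ × ℕ × ℕ × ℕ × ℕ × ℕ) :=
  [(3, 1, 1, 2, 2, 0), (4, 1, 2, 2, 3, 0), (5, 1, 1, 1, 2, 1), (7, 1, 1, 1, 2, 2),
   (8, 1, 2, 1, 4, 1), (9, 1, 1, 1, 6, 2), (11, 1, 1, 1, 3, 4), (12, 1, 4, 1, 6, 1),
   (13, 1, 1, 1, 3, 5), (15, 1, 1, 1, 3, 3), (16, 1, 2, 1, 6, 3), (17, 1, 1, 1, 3, 7),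
   (19, 1, 1, 1, 5, 8), (20, 1, 2, 2, 5, 3), (21, 1, 1, 1, 7, 5), (24, 1, 4, 2, 3, 3),
   (25, 1, 1, 1, 5, 9), (27, 2, 2, 2, 3, 8), (28, 1, 2, 1, 4, 5), (32, 1, 4, 2, 3, 7),
   (33, 1, 1, 1, 3, 9), (35, 1, 1, 1, 7, 11), (36, 1, 4, 1, 6, 5), (40, 1, 6, 2, 5, 7),
   (44, 1, 4, 2, 3, 9), (45, 2, 2, 2, 9, 11), (48, 1, 4, 2, 3, 7)]

theorem T1_ok : T1.all ck = true := by decide +kernel

/-- composite and small prime levels with at least six -/
def T2 : List (ℕ × ℕ × ℕ × ℕ × ℕ × ℕ) :=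
  [(13, 1, 1, 1, 3, 5), (17, 1, 1, 1, 3, 5), (19, 1, 1, 1, 5, 5), (21, 1, 1, 1, 7, 5),
   (25, 1, 1, 1, 5, 5), (27, 2, 2, 2, 3, 5), (28, 1, 2, 1, 4, 5), (31, 1, 2, 2, 4, 5),
   (32, 1, 4, 2, 3, 5), (33, 1, 1, 1, 3, 5), (35, 1, 1, 1, 7, 5), (36, 1, 4, 1, 6, 5),
   (40, 1, 6, 2, 5, 5), (44, 1, 4, 2, 3, 5), (45, 2, 2, 2, 9, 5), (48, 1, 4, 2, 3, 5),
   (49, 1, 1, 1, 3, 5), (55, 1, 1, 1, 5, 5), (77, 1, 1, 1, 3, 5), (121, 1, 1, 1, 3, 5),
   (23, 1, 1, 1, 3, 5), (29, 1, 1, 1, 3, 5), (37, 1, 1, 1, 3, 5), (41, 1, 1, 1, 3, 5),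
   (43, 1, 1, 1, 3, 5), (47, 1, 1, 1, 3, 5), (53, 1, 1, 1, 3, 5), (59, 1, 1, 1, 3, 5),
   (61, 1, 1, 1, 3, 5), (67, 1, 1, 1, 3, 5), (71, 1, 1, 1, 3, 5), (73, 1, 1, 1, 3, 5),
   (79, 1, 1, 1, 3, 5), (83, 1, 1, 1, 3, 5), (89, 1, 1, 1, 3, 5), (97, 1, 1, 1, 3, 5),
   (101, 1, 1, 1, 3, 5), (103, 1, 1, 1, 3, 5), (107, 1, 1, 1, 3, 5), (109, 1, 1, 1, 3, 5),
   (113, 1, 1, 1, 3, 5)]

theorem T2_ok : T2.all ck = true := by decide +kernel

theorem T2_five : T2.all (fun x => x.2.2.2.2.2 == 5) = true := by decide +kernel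

/-- a level of the second table -/
theorem good_T2 {d : ℕ} (h : d ∈ T2.map (fun x => x.1)) : Good d 5 := by
  obtain ⟨⟨d', a, b, c, e, n⟩, hx, rfl⟩ := List.mem_map.1 h
  have h1 := List.all_eq_true.1 T2_ok _ hx
  have h2 := List.all_eq_true.1 T2_five _ hx
  have h3 : n = 5 := by simpa using h2
  subst h3
  exact good_of_ck h1

/-- the pair of `(1,1)`, `(1,3)` when the level is prime to `6` -/
theorem good_cop (q n : ℕ) (h6 : Nat.Coprime q 6) (h5 : 5 ≤ q)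
    (hr : 0 < Helper32.LT2.rr q) (h : n * Helper32.LT2.rr q < q.totient / 2) : Good q n := by
  have hc2 : Nat.Coprime 2 q := cop2 h6
  have e : PU q 1 3 \ PU q 1 1 =
      (Icc 1 (q - 1)).filter fun u => Nat.Coprime u q ∧ q < 4 * u ∧ 3 * u < q := by
    ext u
    rw [mem_sdiff, mem11 q, mem13 q h6 h5, mem_filter, mem_Icc, Un]
    constructor
    · rintro ⟨⟨⟨h1, h2, h3⟩, h4⟩, h7⟩
      rcases h4 with h4 | h4 | h4
      · exact ⟨⟨h1, by omega⟩, h3, h4⟩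
      · exact absurd ⟨⟨h1, h2, h3⟩, h4.1⟩ h7
      · exact absurd ⟨⟨h1, h2, h3⟩, by omega⟩ h7
    · rintro ⟨⟨h1, h2⟩, h3, h4⟩
      exact ⟨⟨⟨h1, by omega, h3⟩, Or.inl h4⟩, fun h7 => by omega⟩
  refine ⟨1, 3, 1, 1, ⟨?_, ?_, ?_⟩, ⟨?_, ?_, ?_⟩, ?_, ?_⟩
  · exact Nat.not_dvd_of_pos_of_lt one_pos (by omega)
  · exact Nat.not_dvd_of_pos_of_lt (by omega) (by omega)
  · exact hc2.mul_left hc2
  · exact Nat.not_dvd_of_pos_of_lt one_pos (by omega)
  · exact Nat.not_dvd_of_pos_of_lt one_pos (by omega)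
  · exact hc2
  · rw [e]
    exact hr
  · rw [e]
    exact h

theorem rr_small : ∀ q ∈ Icc 5 535, Nat.Coprime q 6 → 13 ≤ q → 0 < Helper32.LT2.rr q := by
  decide +kernel

/-- every level prime to `6` and larger than `115` -/
theorem good_big (q : ℕ) (h6 : Nat.Coprime q 6) (h : 115 < q) : Good q 5 := by
  have h1 := Helper32.LT2.ineq_q q h6 h
  refine good_cop q 5 h6 (by omega) ?_ (by omega)
  rcases Nat.lt_or_ge q 536 with h2 | h2
  · exact rr_small q (mem_Icc.2 ⟨by omega, by omega⟩) h6 (by omega)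
  · have h3 := Helper32.LT2.tot_bound q h6 h2
    have h4 := Helper32.LT2.rr_bound q h6 (by omega)
    rw [abs_le] at h4
    have h5 : (48 : ℤ) + 25 * 2 ^ q.primeFactors.card < q.totient := by exact_mod_cast h3
    have h6' := h4.1
    have h7 : (0 : ℤ) < 2 ^ q.primeFactors.card := by positivity
    generalize (2 : ℤ) ^ q.primeFactors.card = w at *
    omega

/-- every prime `p ≥ 13` -/
theorem good_prime (p : ℕ) (hp : p.Prime) (h : 13 ≤ p) : Good p 5 := by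
  rcases Nat.lt_or_ge 115 p with h1 | h1
  · refine good_big p ?_ h1
    have h2 : Nat.Coprime p 2 := (Nat.coprime_primes hp Nat.prime_two).2 (by omega)
    have h3 : Nat.Coprime p 3 := (Nat.coprime_primes hp Nat.prime_three).2 (by omega)
    exact h2.mul_right h3
  · apply good_T2
    interval_cases p <;> first | (exfalso; revert hp; norm_num; done) | decide

theorem dvd_smooth (q : ℕ) (hq : 3 ≤ q) (hp : ∀ p, p.Prime → 13 ≤ p → ¬ p ∣ q)
    (h2 : ¬ 32 ∣ q) (h3 : ¬ 27 ∣ q) (h5 : ¬ 25 ∣ q) (h7 : ¬ 49 ∣ q) (h11 : ¬ 121 ∣ q) :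
    q ∣ 16 * (9 * (5 * (7 * 11))) := by
  have hq0 : q ≠ 0 := by omega
  have hne : 16 * (9 * (5 * (7 * 11))) ≠ 0 := by norm_num
  rw [← Nat.factorization_le_iff_dvd hq0 hne]
  intro p
  by_cases hpp : p.Prime
  · have key : ∀ k : ℕ, p ^ k ∣ 16 * (9 * (5 * (7 * 11))) → ¬ p ^ (k + 1) ∣ q →
        q.factorization p ≤ (16 * (9 * (5 * (7 * 11)))).factorization p := by
      intro k h8 h9
      have h10 := (hpp.pow_dvd_iff_le_factorization hne).1 h8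
      rw [hpp.pow_dvd_iff_le_factorization hq0] at h9
      omega
    rcases Nat.lt_or_ge p 13 with h | h
    · have h0 := hpp.two_le
      have hcase : p = 2 ∨ p = 3 ∨ p = 5 ∨ p = 7 ∨ p = 11 := by
        interval_cases p <;> first | omega | (exfalso; revert hpp; norm_num)
      rcases hcase with rfl | rfl | rfl | rfl | rfl
      · exact key 4 (by norm_num) h2
      · exact key 2 (by norm_num) h3
      · exact key 1 (by norm_num) h5
      · exact key 1 (by norm_num) h7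
      · exact key 1 (by norm_num) h11
    · rw [Nat.factorization_eq_zero_of_not_dvd (hp p hpp h)]
      exact Nat.zero_le _
  · rw [Nat.factorization_eq_zero_of_not_prime q hpp]
    exact Nat.zero_le _

/-- `q` is small, or `60`, or a level of the tables divides it -/
def okq (q : ℕ) : Bool :=
  decide (q < 3) || decide (q = 60) ||
    (T1 ++ T2).any fun x => decide (x.1 ∣ q) && decide (min 6 (q.totient / 2) - 1 ≤ x.2.2.2.2.2)

theorem ok_smooth : ∀ a ∈ [1, 2, 4, 8, 16], ∀ b ∈ [1, 3, 9], ∀ c ∈ [1, 5], ∀ d ∈ [1, 7],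
    ∀ e ∈ [1, 11], okq (a * (b * (c * (d * e)))) = true := by
  decide +kernel

theorem mem16 : ∀ a, a ∣ 16 → a ∈ [1, 2, 4, 8, 16] := by
  intro a h
  have h1 := Nat.le_of_dvd (by norm_num) h
  interval_cases a <;> first | (exfalso; revert h; norm_num; done) | decide

theorem mem9 : ∀ a, a ∣ 9 → a ∈ [1, 3, 9] := by
  intro a h
  have h1 := Nat.le_of_dvd (by norm_num) h
  interval_cases a <;> first | (exfalso; revert h; norm_num; done) | decide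

theorem mem_pr (p : ℕ) (hp : p.Prime) : ∀ a, a ∣ p → a ∈ [1, p] := by
  intro a h
  rcases (Nat.dvd_prime hp).1 h with h | h
  · rw [h]
    exact List.mem_cons_self
  · rw [h]
    exact List.mem_cons_of_mem _ List.mem_cons_self

theorem good_entry {x : ℕ × ℕ × ℕ × ℕ × ℕ × ℕ} (h : x ∈ T1 ++ T2) :
    3 ≤ x.1 ∧ Good x.1 x.2.2.2.2.2 := by
  have h1 : (T1 ++ T2).all (fun x => ck x && decide (3 ≤ x.1)) = true := by decide +kernel
  have h2 := List.all_eq_true.1 h1 _ h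
  rw [Bool.and_eq_true, decide_eq_true_eq] at h2
  obtain ⟨d, a, b, c, e, n⟩ := x
  exact ⟨h2.2, good_of_ck h2.1⟩

/-- every level `q ≠ 60` is divisible by a level `d` with
`min 6 (φ(q) / 2) ≤ n + 1`, `n r < φ(d) / 2` -/
theorem good_all (q : ℕ) (hq : 3 ≤ q) (h60 : q ≠ 60) :
    ∃ d, d ∣ q ∧ 3 ≤ d ∧ Good d (min 6 (q.totient / 2) - 1) := by
  have hm : min 6 (q.totient / 2) - 1 ≤ 5 := by omega
  by_cases hp : ∀ p, p.Prime → 13 ≤ p → ¬ p ∣ q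
  · by_cases hD : ∃ d ∈ T2.map (fun x => x.1), d ∣ q
    · obtain ⟨d, hd, hdq⟩ := hD
      refine ⟨d, hdq, ?_, (good_T2 hd).mono hm⟩
      obtain ⟨x, hx, rfl⟩ := List.mem_map.1 hd
      exact (good_entry (List.mem_append_right _ hx)).1
    · push Not at hD
      have h1 := dvd_smooth q hq hp (hD 32 (by decide)) (hD 27 (by decide)) (hD 25 (by decide))
        (hD 49 (by decide)) (hD 121 (by decide))
      obtain ⟨a, y1, ha, k1, rfl⟩ := (Nat.dvd_mul).1 h1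
      obtain ⟨b, y2, hb, k2, rfl⟩ := (Nat.dvd_mul).1 k1
      obtain ⟨c, y3, hc, k3, rfl⟩ := (Nat.dvd_mul).1 k2
      obtain ⟨d, e, hd, he, rfl⟩ := (Nat.dvd_mul).1 k3
      have h2 := ok_smooth a (mem16 a ha) b (mem9 b hb) c (mem_pr 5 (by norm_num) c hc) d
        (mem_pr 7 (by norm_num) d hd) e (mem_pr 11 (by norm_num) e he)
      rw [okq, Bool.or_eq_true, Bool.or_eq_true, decide_eq_true_eq, decide_eq_true_eq,
        List.any_eq_true] at h2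
      rcases h2 with (h2 | h2) | ⟨x, hx, h2⟩
      · omega
      · exact absurd h2 h60
      · rw [Bool.and_eq_true, decide_eq_true_eq, decide_eq_true_eq] at h2
        obtain ⟨h3, h4⟩ := good_entry hx
        exact ⟨x.1, h2.1, h3, h4.mono h2.2⟩
  · push Not at hp
    obtain ⟨p, hp1, hp2, hp3⟩ := hp
    exact ⟨p, hp3, by omega, (good_prime p hp1 hp2).mono hm⟩

/-- `q = 60`: at least four -/
theorem good_sixty : ∃ d, d ∣ 60 ∧ 3 ≤ d ∧ Good d 3 :=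
  ⟨20, by decide, by decide, good_of_ck (a := 1) (b := 2) (c := 2) (e := 5) (by decide +kernel)⟩

/-- the levels with the full value -/
def Lf : List ℕ :=
  [3, 4, 5, 6, 7, 8, 9, 10, 11, 12, 13, 14, 15, 16, 17, 18, 19, 20, 21, 22, 24, 25, 26, 27, 28, 30,
   32, 33, 34, 35, 36, 38, 40, 42, 44, 45, 48, 50, 54, 66, 70, 90]

theorem Lf_ok : Lf.all (fun q => T1.any fun x => decide (x.1 ∣ q) &&
    decide (x.1.totient = q.totient) && decide (x.2.2.2.2.2 = q.totient / 2 - 1)) = true := by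
  decide +kernel

/-- the levels with the full value `φ(q) / 2` -/
theorem good_full (q : ℕ) (h : q ∈ Lf) :
    ∃ d, d ∣ q ∧ 3 ≤ d ∧ d.totient = q.totient ∧ Good d (q.totient / 2 - 1) := by
  have h1 := List.all_eq_true.1 Lf_ok _ h
  rw [List.any_eq_true] at h1
  obtain ⟨x, hx, h2⟩ := h1
  rw [Bool.and_eq_true, Bool.and_eq_true, decide_eq_true_eq, decide_eq_true_eq,
    decide_eq_true_eq] at h2
  obtain ⟨h3, h4⟩ := good_entry (List.mem_append_left _ hx)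
  rw [h2.2] at h4
  exact ⟨x.1, h2.1.1, h3, h2.1.2, h4⟩

/-! ### levels for which the primitive ratios suffice -/

/-- full value and the primitive ratios suffice -/
def Lp : List ℕ :=
  [3, 4, 5, 6, 7, 8, 9, 10, 11, 12, 13, 15, 16, 17, 18, 19, 22, 25, 26, 27, 32, 34, 35, 36, 38,
   44, 45, 50, 54]

theorem Lp_sub : ∀ q ∈ Lp, q ∈ Lf := by decide

/-- `q, p, v, m, k`: `q = p ^ v m`, `m` divides `p ^ k + 1` -/
def Tp : List (ℕ × ℕ × ℕ × ℕ × ℕ) :=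
  [(3, 3, 1, 1, 0), (4, 2, 2, 1, 0), (5, 5, 1, 1, 0), (6, 2, 1, 3, 1), (6, 3, 1, 2, 0),
   (7, 7, 1, 1, 0), (8, 2, 3, 1, 0), (9, 3, 2, 1, 0), (10, 2, 1, 5, 2), (10, 5, 1, 2, 0),
   (11, 11, 1, 1, 0), (12, 2, 2, 3, 1), (12, 3, 1, 4, 1), (13, 13, 1, 1, 0), (15, 3, 1, 5, 2),
   (15, 5, 1, 3, 1), (16, 2, 4, 1, 0), (17, 17, 1, 1, 0), (18, 2, 1, 9, 3), (18, 3, 2, 2, 0),
   (19, 19, 1, 1, 0), (22, 2, 1, 11, 5), (22, 11, 1, 2, 0), (25, 5, 2, 1, 0), (26, 2, 1, 13, 6),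
   (26, 13, 1, 2, 0), (27, 3, 3, 1, 0), (32, 2, 5, 1, 0), (34, 2, 1, 17, 4), (34, 17, 1, 2, 0),
   (35, 5, 1, 7, 3), (35, 7, 1, 5, 2), (36, 2, 2, 9, 3), (36, 3, 2, 4, 1), (38, 2, 1, 19, 9),
   (38, 19, 1, 2, 0), (44, 2, 2, 11, 5), (44, 11, 1, 4, 1), (45, 3, 2, 5, 2), (45, 5, 1, 9, 3),
   (50, 2, 1, 25, 10), (50, 5, 2, 2, 0), (54, 2, 1, 27, 9), (54, 3, 3, 2, 0)]

theorem Tp_ok : Tp.all (fun x => decide (x.1 = x.2.1 ^ x.2.2.1 * x.2.2.2.1) &&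
    decide (¬ x.2.1 ∣ x.2.2.2.1) && decide (x.2.2.2.1 ∣ x.2.1 ^ x.2.2.2.2 + 1)) = true := by
  decide +kernel

theorem Tp_all : ∀ q ∈ Lp, ∀ p ∈ range 55, p.Prime → p ∣ q →
    ∃ x ∈ Tp, x.1 = q ∧ x.2.1 = p := by
  decide +kernel

theorem crit_aux (q p v m k : ℕ) (hq : 0 < q) (hp : p.Prime) (h : q = p ^ v * m) (hm : ¬ p ∣ m)
    (hk : m ∣ p ^ k + 1) : (p : ZMod (q / p ^ q.factorization p)) ^ k = -1 := by
  have h1 : q.factorization p = v := by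
    have hm0 : m ≠ 0 := by
      rintro rfl
      rw [mul_zero] at h
      omega
    rw [h, Nat.factorization_mul (pow_ne_zero _ hp.ne_zero) hm0, Finsupp.add_apply,
      hp.factorization_pow, Finsupp.single_eq_same, Nat.factorization_eq_zero_of_not_dvd hm,
      add_zero]
  have h2 : q / p ^ q.factorization p = m := by
    rw [h1, h, Nat.mul_div_cancel_left _ (pow_pos hp.pos v)]
  rw [h2]
  have h3 := (ZMod.natCast_eq_zero_iff (p ^ k + 1) m).2 hk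
  push_cast at h3
  exact eq_neg_of_add_eq_zero_left h3

/-- the criterion for the primitive ratios -/
theorem crit (q : ℕ) (hq : q ∈ Lp) (p : ℕ) (hp : p.Prime) (hd : p ∣ q) :
    ∃ k : ℕ, (p : ZMod (q / p ^ q.factorization p)) ^ k = -1 := by
  have h0 : 0 < q ∧ q < 55 := by
    have h : ∀ x ∈ Lp, 0 < x ∧ x < 55 := by decide
    exact h q hq
  have hp1 : p < 55 := lt_of_le_of_lt (Nat.le_of_dvd h0.1 hd) h0.2
  obtain ⟨⟨q', p', v, m, k⟩, hx, rfl, rfl⟩ := Tp_all q hq p (mem_range.2 hp1) hp hd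
  have h1 := List.all_eq_true.1 Tp_ok _ hx
  rw [Bool.and_eq_true, Bool.and_eq_true, decide_eq_true_eq, decide_eq_true_eq,
    decide_eq_true_eq] at h1
  exact ⟨k, crit_aux _ _ v m k h0.1 hp h1.1.1 h1.1.2 h1.2⟩

/-- `35 ∣ q` or `45 ∣ q`: twelve -/
theorem good_twelve (q : ℕ) (h : 35 ∣ q ∨ 45 ∣ q) : ∃ d, d ∣ q ∧ 3 ≤ d ∧ Good d 11 := by
  rcases h with h | h
  · exact ⟨35, h, by decide, (good_entry (x := (35, 1, 1, 1, 7, 11)) (by decide)).2⟩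
  · exact ⟨45, h, by decide, (good_entry (x := (45, 2, 2, 2, 9, 11)) (by decide)).2⟩

/-- `25`, `33`, `44`: ten -/
theorem good_ten (q : ℕ) (h : 25 ∣ q ∨ 33 ∣ q ∨ 44 ∣ q) :
    ∃ d, d ∣ q ∧ 3 ≤ d ∧ Good d 9 := by
  rcases h with h | h | h
  · exact ⟨25, h, by decide, (good_entry (x := (25, 1, 1, 1, 5, 9)) (by decide)).2⟩
  · exact ⟨33, h, by decide, (good_entry (x := (33, 1, 1, 1, 3, 9)) (by decide)).2⟩
  · exact ⟨44, h, by decide, (good_entry (x := (44, 1, 4, 2, 3, 9)) (by decide)).2⟩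

end Pool.Agent.Helper32.LU
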