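import Pool.Agent.Helper32.LU.Defs
import Pool.Agent.Helper32.RA.Stmt
import Pool.Agent.Helper32.LV.Stmt

/-! The Leavitt path algebra has the universal property. -/

set_option autoImplicit false

universe k a b w a' b' w'

namespace Pool.Agent.Helper32.LU

open Pool.Agent.Helper32.LV

variable {K : Type k} [Field K] {V : Type a} {E : Type b}

instance instTowerLPA (G : Gr V E) : IsScalarTower K (LPA K G) (LPA K G) :=
  inferInstanceAs (IsScalarTower K ↥(LQ K G) ↥(LQ K G))

instance instCommLPA (G : Gr V E) : SMulCommClass K (LPA K G) (LPA K G) :=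
  inferInstanceAs (SMulCommClass K ↥(LQ K G) ↥(LQ K G))

theorem rels_LPA (G : Gr V E) : Rels G.s G.r (fun p => LPA.gen K G (.vert p))
    (fun x => LPA.gen K G (.edge x)) (fun x => LPA.gen K G (.ghost x)) where
  vv p := Subtype.ext (vx_vx (K := K) (G := G) p)
  vw p q h := Subtype.ext (vx_vx_of_ne (K := K) (G := G) h)
  se x := Subtype.ext (vx_ed (K := K) (G := G) x)
  er x := Subtype.ext (ed_vx (K := K) (G := G) x)
  rg x := Subtype.ext (vx_gh (K := K) (G := G) x)
  gs x := Subtype.ext (gh_vx (K := K) (G := G) x)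
  ge x := Subtype.ext (gh_ed (K := K) (G := G) x)
  gf x y h := Subtype.ext (gh_ed_of_ne (K := K) (G := G) h)
  ck p h h0 := by
    refine Subtype.ext ((vx_eq_sum (K := K) (G := G) p h h0).trans ?_)
    exact (map_sum (NonUnitalSubalgebraClass.subtype (LQ K G))
      (fun x => (LPA.gen K G (.edge x) * LPA.gen K G (.ghost x) : ↥(LQ K G))) h.toFinset).symm

variable {A : Type w} [NonUnitalRing A] [Module K A] [IsScalarTower K A A] [SMulCommClass K A A]

theorem isRep_unit {s r : E → V} {v : V → A} {e g : E → A} (h : Rels s r v e g) :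
    IsRep K (⟨s, r⟩ : Gr V E) (fun p => (v p : Unitization K A)) (fun x => (e x : Unitization K A))
      (fun x => (g x : Unitization K A)) where
  vv p := by rw [← Unitization.inr_mul, h.vv]
  vw p q hpq := by rw [← Unitization.inr_mul, h.vw p q hpq, Unitization.inr_zero]
  se x := by rw [← Unitization.inr_mul, h.se]
  er x := by rw [← Unitization.inr_mul, h.er]
  rg x := by rw [← Unitization.inr_mul, h.rg]
  gs x := by rw [← Unitization.inr_mul, h.gs]
  ge x := by rw [← Unitization.inr_mul, h.ge]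
  gf x y hxy := by rw [← Unitization.inr_mul, h.gf x y hxy, Unitization.inr_zero]
  ck p hp h0 := by
    rw [h.ck p hp h0]
    refine (map_sum (Unitization.inrNonUnitalAlgHom K A) (fun x => e x * g x) hp.toFinset).trans ?_
    exact Finset.sum_congr rfl fun x _ => Unitization.inr_mul K _ _

theorem exists_equiv {s r : E → V} {v : V → A} {e g : E → A} (h : IsLPA K s r v e g) :
    ∃ Φ : A ≃+* LPA K (⟨s, r⟩ : Gr V E), (∀ (c : K) x, Φ (c • x) = c • Φ x) ∧
      (∀ p, Φ (v p) = LPA.gen K _ (.vert p)) ∧ (∀ x, Φ (e x) = LPA.gen K _ (.edge x)) ∧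
      ∀ x, Φ (g x) = LPA.gen K _ (.ghost x) := by
  set G : Gr V E := ⟨s, r⟩ with hG
  obtain ⟨φ, h1, h2, h3⟩ := h.universal (LPA K G) _ _ _ (rels_LPA (K := K) G)
  have hrep := isRep_unit (K := K) h.rels
  have key : ∀ a : A, lift hrep (show U K G from (φ a).1) = (a : Unitization K A) := by
    intro a
    have ha : a ∈ NonUnitalAlgebra.adjoin K (Set.range v ∪ Set.range e ∪ Set.range g) := by
      rw [h.generate]; exact NonUnitalAlgebra.mem_top
    induction ha using NonUnitalAlgebra.adjoin_induction with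
    | mem x hx =>
      rcases hx with (⟨p, rfl⟩ | ⟨p, rfl⟩) | ⟨p, rfl⟩
      · rw [h1]; exact lift_vx hrep p
      · rw [h2]; exact lift_ed hrep p
      · rw [h3]; exact lift_gh hrep p
    | zero =>
      rw [map_zero]
      exact map_zero (lift hrep)
    | add x y hx hy h1 h2 =>
      rw [map_add, Unitization.inr_add, ← h1, ← h2]
      exact map_add (lift hrep) _ _
    | mul x y hx hy h1 h2 =>
      rw [map_mul, Unitization.inr_mul, ← h1, ← h2]
      exact map_mul (lift hrep) _ _
    | smul c x hx h1 =>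
      rw [map_smul, Unitization.inr_smul, ← h1]
      exact map_smul (lift hrep) c _
  have hinj : Function.Injective φ := by
    intro x y hxy
    have h4 := key x
    rw [hxy, key y] at h4
    exact (Unitization.inr_injective h4).symm
  have hsurj : Function.Surjective φ := by
    intro x
    refine RA.LPA_ind (K := K) (G := G) (p := fun x => ∃ a, φ a = x) ⟨0, map_zero φ⟩ ?_ ?_ ?_ ?_ x
    · rintro _ _ ⟨x, rfl⟩ ⟨y, rfl⟩
      exact ⟨x + y, map_add φ x y⟩
    · rintro _ _ ⟨x, rfl⟩ ⟨y, rfl⟩
      exact ⟨x * y, map_mul φ x y⟩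
    · rintro c _ ⟨x, rfl⟩
      exact ⟨c • x, map_smul φ c x⟩
    · rintro (p | x | x)
      · exact ⟨_, h1 p⟩
      · exact ⟨_, h2 x⟩
      · exact ⟨_, h3 x⟩
  exact ⟨RingEquiv.ofBijective φ ⟨hinj, hsurj⟩, fun c x => map_smul φ c x, h1, h2, h3⟩

omit [IsScalarTower K A A] [SMulCommClass K A A] in
/-- the isomorphism is compatible with the involutions -/
theorem equiv_star [StarRing K] {G : Gr V E} (Φ : A ≃+* LPA K G) (hΦ : ∀ (c : K) x, Φ (c • x) = c • Φ x)
    (σ : A → A) (h1 : ∀ x y, σ (x + y) = σ x + σ y) (h2 : ∀ x y, σ (x * y) = σ y * σ x)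
    (h3 : ∀ (c : K) x, σ (c • x) = star c • σ x)
    (h4 : ∀ z, Φ (σ (Φ.symm (LPA.gen K G z))) = LPA.gen K G z.sw) (x : A) :
    Φ (σ x) = star (Φ x) := by
  have hΦ' : ∀ (c : K) x, Φ.symm (c • x) = c • Φ.symm x := by
    intro c x
    apply Φ.injective
    rw [hΦ, RingEquiv.apply_symm_apply, RingEquiv.apply_symm_apply]
  have h : IsStar K G (fun y => Φ (σ (Φ.symm y))) :=
    { add := fun x y => by rw [map_add, h1, map_add]
      mul := fun x y => by rw [map_mul, h2, map_mul]
      smul := fun c x => by rw [hΦ', h3, hΦ]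
      gen := h4 }
  have h5 := congrFun (h.ext (isStar_sg K G)) (Φ x)
  rw [star_LPA]
  simpa using h5

end Pool.Agent.Helper32.LU
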