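import Mathlib

/-!
# Leavitt path algebras: definitions

A directed graph is given by the maps `s r : E → V` which assign to every edge its source and its
range.
-/

set_option autoImplicit false

universe k a b w

namespace Pool.Agent.Helper32.LU

variable {V : Type a} {E : Type b}

/-- The relations of the Leavitt path algebra, for elements `v p` (vertices), `e x` (edges) and `g x`
(ghost edges `x*`) of a ring. -/
structure Rels (s r : E → V) {A : Type w} [NonUnitalRing A] (v : V → A) (e g : E → A) : Prop where
  vv : ∀ p, v p * v p = v p
  vw : ∀ p q, p ≠ q → v p * v q = 0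
  se : ∀ x, v (s x) * e x = e x
  er : ∀ x, e x * v (r x) = e x
  rg : ∀ x, v (r x) * g x = g x
  gs : ∀ x, g x * v (s x) = g x
  ge : ∀ x, g x * e x = v (r x)
  gf : ∀ x y, x ≠ y → g x * e y = 0
  ck : ∀ (p : V) (h : {x | s x = p}.Finite), (∃ x, s x = p) →
    v p = ∑ x ∈ h.toFinset, e x * g x

/-- The `K`-algebra `A` (with or without unit) is the Leavitt path algebra of the graph: it is
generated by elements which satisfy the relations, and it is universal with this property. -/
structure IsLPA (K : Type k) [Field K] (s r : E → V) {A : Type w} [NonUnitalRing A] [Module K A]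
    [IsScalarTower K A A] [SMulCommClass K A A] (v : V → A) (e g : E → A) : Prop where
  rels : Rels s r v e g
  generate : NonUnitalAlgebra.adjoin K (Set.range v ∪ Set.range e ∪ Set.range g) = ⊤
  universal : ∀ (B : Type (max k a b)) [NonUnitalRing B] [Module K B] [IsScalarTower K B B]
    [SMulCommClass K B B] (v' : V → B) (e' g' : E → B), Rels s r v' e' g' →
      ∃ φ : A →ₙₐ[K] B, (∀ p, φ (v p) = v' p) ∧ (∀ x, φ (e x) = e' x) ∧ ∀ x, φ (g x) = g' x

/-- The `*`-algebra `A` is the Leavitt path algebra of the graph, with the involution which fixes the
vertices and sends every edge to its ghost edge. -/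
structure IsStarLPA (K : Type k) [Field K] [StarRing K] (s r : E → V) {A : Type w}
    [NonUnitalRing A] [StarRing A] [Module K A] [StarModule K A] [IsScalarTower K A A]
    [SMulCommClass K A A] (v : V → A) (e : E → A) : Prop where
  lpa : IsLPA K s r v e (fun x => star (e x))
  star : ∀ p, star (v p) = v p

/-- `σ` is the involution of the Leavitt path algebra `A`: additive, antimultiplicative,
conjugate-linear, fixing the vertices and exchanging the edges and their ghost edges. -/
structure IsInvolution (K : Type k) [Field K] [StarRing K] {A : Type w} [NonUnitalRing A]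
    [Module K A] (v : V → A) (e g : E → A) (σ : A → A) : Prop where
  add : ∀ x y, σ (x + y) = σ x + σ y
  mul : ∀ x y, σ (x * y) = σ y * σ x
  smul : ∀ (c : K) x, σ (c • x) = star c • σ x
  vert : ∀ p, σ (v p) = v p
  edge : ∀ x, σ (e x) = g x
  ghost : ∀ x, σ (g x) = e x

/-- `l` is a cycle: a non-empty closed path whose edges have distinct sources. -/
structure IsCycle (s r : E → V) (l : List E) : Prop where
  path : l.IsChain (fun x y => r x = s y)
  closed : ∃ x y, l.getLast? = some x ∧ l.head? = some y ∧ r x = s y
  nodup : (l.map s).Nodup

end Pool.Agent.Helper32.LU
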