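import Pool.Agent.Helper32.LU.Bridge

/-! The Leavitt path algebra exists: the subalgebra `LPA K G` generated by the vertices, the edges
and the ghost edges in the unital algebra presented by the relations has the properties required in
`IsLPA` and, with its involution, in `IsStarLPA`. -/

set_option autoImplicit false

universe k a b w

namespace Pool.Agent.Helper32.LU

open Pool.Agent.Helper32.LV

variable {K : Type k} [Field K] {V : Type a} {E : Type b}

theorem isLPA_LPA (G : Gr V E) : IsLPA K G.s G.r (fun p => LPA.gen K G (.vert p))
    (fun x => LPA.gen K G (.edge x)) (fun x => LPA.gen K G (.ghost x)) where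
  rels := rels_LPA G
  generate := by
    rw [eq_top_iff]
    intro x _
    refine RA.LPA_ind (K := K) (G := G) (p := fun x => x ∈ NonUnitalAlgebra.adjoin K _) ?_ ?_ ?_ ?_
      ?_ x
    · exact zero_mem _
    · intro x y hx hy
      exact add_mem hx hy
    · intro x y hx hy
      exact mul_mem hx hy
    · intro c x hx
      exact SMulMemClass.smul_mem c hx
    · rintro (p | x | x)
      · exact NonUnitalAlgebra.subset_adjoin K (Or.inl (Or.inl ⟨p, rfl⟩))
      · exact NonUnitalAlgebra.subset_adjoin K (Or.inl (Or.inr ⟨x, rfl⟩))
      · exact NonUnitalAlgebra.subset_adjoin K (Or.inr ⟨x, rfl⟩)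
  universal B _ _ _ _ v e g h := by
    have hrep := isRep_unit (K := K) h
    let T : LPA K G → Unitization K B := fun x => lift hrep (show U K G from x.1)
    have Tadd : ∀ x y, T (x + y) = T x + T y := fun x y => map_add (lift hrep) _ _
    have Tmul : ∀ x y, T (x * y) = T x * T y := fun x y => map_mul (lift hrep) _ _
    have Tsmul : ∀ (c : K) x, T (c • x) = c • T x := fun c x => map_smul (lift hrep) c _
    have Tzero : T 0 = 0 := map_zero (lift hrep)
    have hv : ∀ p, T (LPA.gen K G (.vert p)) = (v p : Unitization K B) := fun p => lift_vx hrep p
    have he : ∀ p, T (LPA.gen K G (.edge p)) = (e p : Unitization K B) := fun p => lift_ed hrep p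
    have hg : ∀ p, T (LPA.gen K G (.ghost p)) = (g p : Unitization K B) := fun p => lift_gh hrep p
    have hfst : ∀ x, (T x).fst = 0 := by
      intro x
      refine RA.LPA_ind (K := K) (G := G) (p := fun x => (T x).fst = 0) ?_ ?_ ?_ ?_ ?_ x
      · rw [Tzero]; rfl
      · intro x y hx hy
        rw [Tadd, Unitization.fst_add, hx, hy, add_zero]
      · intro x y hx hy
        rw [Tmul, Unitization.fst_mul, hx, zero_mul]
      · intro c x hx
        rw [Tsmul, Unitization.fst_smul, hx, smul_zero]
      · rintro (p | x | x)
        · rw [hv]; rfl
        · rw [he]; rfl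
        · rw [hg]; rfl
    refine ⟨{ toFun := fun x => (T x).snd
              map_smul' := fun c x => by
                change (T (c • x)).snd = c • (T x).snd
                rw [Tsmul, Unitization.snd_smul]
              map_zero' := by
                change (T 0).snd = 0
                rw [Tzero]; rfl
              map_add' := fun x y => by
                rw [Tadd, Unitization.snd_add]
              map_mul' := fun x y => by
                rw [Tmul, Unitization.snd_mul, hfst, hfst, zero_smul, zero_smul, zero_add,
                  zero_add] }, fun p => ?_, fun p => ?_, fun p => ?_⟩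
    · change (T _).snd = _
      rw [hv]; rfl
    · change (T _).snd = _
      rw [he]; rfl
    · change (T _).snd = _
      rw [hg]; rfl

/-- Every graph has a Leavitt path algebra in the sense of `IsLPA`. -/
theorem exists_isLPA (s r : E → V) : ∃ (A : Type (max k a b)) (_ : NonUnitalRing A)
    (_ : Module K A) (_ : IsScalarTower K A A) (_ : SMulCommClass K A A) (v : V → A) (e g : E → A),
    IsLPA K s r v e g :=
  ⟨LPA K (⟨s, r⟩ : Gr V E), inferInstance, inferInstance, inferInstance, inferInstance, _, _, _,
    isLPA_LPA (K := K) (⟨s, r⟩ : Gr V E)⟩

noncomputable instance instStarRingLPA [StarRing K] (G : Gr V E) : StarRing (LPA K G) where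
  star_involutive := by
    have h := RA.isStar_star (K := K) (G := G)
    intro x
    refine RA.LPA_ind (K := K) (G := G) (p := fun x => star (star x) = x) ?_ ?_ ?_ ?_ ?_ x
    · have h0 : star (0 : LPA K G) = 0 := h.zero
      rw [h0, h0]
    · intro x y hx hy
      rw [h.add, h.add, hx, hy]
    · intro x y hx hy
      rw [h.mul, h.mul, hx, hy]
    · intro c x hx
      rw [h.smul, h.smul, hx, star_star]
    · rintro (p | x | x)
      · rw [h.gen, h.gen]; rfl
      · rw [h.gen, h.gen]; rfl
      · rw [h.gen, h.gen]; rfl
  star_mul := (RA.isStar_star (K := K) (G := G)).mul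
  star_add := (RA.isStar_star (K := K) (G := G)).add

instance instStarModuleLPA [StarRing K] (G : Gr V E) : StarModule K (LPA K G) where
  star_smul := (RA.isStar_star (K := K) (G := G)).smul

/-- Every graph has a Leavitt path algebra in the sense of `IsStarLPA`. -/
theorem isStarLPA_LPA [StarRing K] (G : Gr V E) :
    IsStarLPA K G.s G.r (fun p => LPA.gen K G (.vert p)) (fun x => LPA.gen K G (.edge x)) where
  lpa := by
    have h := isLPA_LPA (K := K) G
    have h2 : (fun x => star (LPA.gen K G (.edge x))) = fun x => LPA.gen K G (.ghost x) :=
      funext fun x => (RA.isStar_star (K := K) (G := G)).gen (.edge x)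
    rw [h2]
    exact h
  star p := (RA.isStar_star (K := K) (G := G)).gen (.vert p)

end Pool.Agent.Helper32.LU
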