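import Pool.Agent.Helper32.LU.Bridge
import Pool.Agent.Helper32.PG.Stmt

/-! The theorems for algebras with the universal property of the Leavitt path algebra. -/

set_option autoImplicit false

universe k a b w a' b' w'

namespace Pool.Agent.Helper32.LU

open Pool.Agent.Helper32.LV

section one

variable {K : Type k} [Field K] {V : Type a} {E : Type b} {s r : E → V}
  {A : Type w} [NonUnitalRing A] [Module K A] [IsScalarTower K A A] [SMulCommClass K A A]

theorem equiv_inv [StarRing K] {v : V → A} {e g : E → A} {σ : A → A}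
    (hσ : IsInvolution K v e g σ) (Φ : A ≃+* LPA K (⟨s, r⟩ : Gr V E))
    (h0 : ∀ (c : K) x, Φ (c • x) = c • Φ x) (h1 : ∀ p, Φ (v p) = LPA.gen K _ (.vert p))
    (h2 : ∀ x, Φ (e x) = LPA.gen K _ (.edge x)) (h3 : ∀ x, Φ (g x) = LPA.gen K _ (.ghost x))
    (x : A) : Φ (σ x) = star (Φ x) := by
  refine equiv_star Φ h0 σ hσ.add hσ.mul hσ.smul ?_ x
  rintro (p | x | x)
  · rw [← h1, RingEquiv.symm_apply_apply, hσ.vert, h1]
    rfl
  · rw [← h2, RingEquiv.symm_apply_apply, hσ.edge, h3]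
    rfl
  · rw [← h3, RingEquiv.symm_apply_apply, hσ.ghost, h2]
    rfl

/-- A `*`-algebra with the universal property is isomorphic to `LPA`. -/
theorem starEquiv [StarRing K] [StarRing A] [StarModule K A] {v : V → A} {e : E → A}
    (h : IsStarLPA K s r v e) : Nonempty (A ≃⋆ₐ[K] LPA K (⟨s, r⟩ : Gr V E)) := by
  obtain ⟨Φ, h0, h1, h2, h3⟩ := exists_equiv h.lpa
  have hσ : IsInvolution K v e (fun x => star (e x)) (fun x : A => star x) :=
    { add := star_add
      mul := star_mul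
      smul := star_smul
      vert := h.star
      edge := fun _ => rfl
      ghost := fun x => star_star _ }
  exact ⟨{ toFun := Φ
           invFun := Φ.symm
           left_inv := Φ.left_inv
           right_inv := Φ.right_inv
           map_mul' := Φ.map_mul'
           map_add' := Φ.map_add'
           map_star' := equiv_inv hσ Φ h0 h1 h2 h3
           map_smul' := h0 }⟩

theorem isChain_of_isPath {G : Gr V E} : ∀ (l : List E) (p : V), G.IsPath p l →
    l.IsChain (fun x y => G.r x = G.s y)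
  | [], _, _ => List.IsChain.nil
  | [_], _, _ => List.IsChain.singleton _
  | x :: y :: l, _, h => by
    refine List.IsChain.cons_cons ?_ (isChain_of_isPath (y :: l) (G.r x) h.2)
    exact h.2.1.symm

theorem getLast_of_tgt {G : Gr V E} : ∀ (l : List E) (p : V), l ≠ [] →
    ∃ x, l.getLast? = some x ∧ G.tgt p l = G.r x
  | [], _, h => absurd rfl h
  | [x], _, _ => ⟨x, rfl, rfl⟩
  | x :: y :: l, p, _ => by
    obtain ⟨z, h1, h2⟩ := getLast_of_tgt (G := G) (y :: l) (G.r x) (by simp)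
    exact ⟨z, by simpa using h1, h2⟩

theorem isCycle_of {G : Gr V E} {l : List E} (h : G.IsCycle l) : IsCycle G.s G.r l := by
  obtain ⟨p, h0, h1, h2, h3⟩ := h
  refine ⟨isChain_of_isPath l p h1, ?_, h3⟩
  obtain ⟨x, h4, h5⟩ := getLast_of_tgt (G := G) l p h0
  cases l with
  | nil => exact absurd rfl h0
  | cons y l =>
    refine ⟨x, y, h4, rfl, ?_⟩
    rw [← h5, h2]
    exact h1.1.symm

end one

section two

variable {K : Type k} [Field K] {V : Type a} {E : Type b} {s r : E → V}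
  {A : Type w} [NonUnitalRing A] [Module K A] [IsScalarTower K A A] [SMulCommClass K A A]
  {V' : Type a'} {E' : Type b'} {s' r' : E' → V'}
  {A' : Type w'} [NonUnitalRing A'] [Module K A'] [IsScalarTower K A' A'] [SMulCommClass K A' A']

theorem alg_iso {v : V → A} {e g : E → A} (h : IsLPA K s r v e g) {v' : V' → A'}
    {e' g' : E' → A'} (h' : IsLPA K s' r' v' e' g') (θ : A ≃+* A') :
    ∃ f : A ≃+* A', (∀ (c : K) x, f (c • x) = c • f x) ∧ (∀ p, f (v p) = θ (v p)) ∧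
      (∀ x, f (e x) = θ (e x)) ∧ (∀ x, f (g x) = θ (g x)) ∧
      ∀ [StarRing K] (σ : A → A) (σ' : A' → A'), IsInvolution K v e g σ →
        IsInvolution K v' e' g' σ' → (∀ x, θ (σ x) = σ' (θ x)) → ∀ x, f (σ x) = σ' (f x) := by
  obtain ⟨Φ, a0, a1, a2, a3⟩ := exists_equiv h
  obtain ⟨Ψ, b0, b1, b2, b3⟩ := exists_equiv h'
  have b0' : ∀ (c : K) x, Ψ.symm (c • x) = c • Ψ.symm x := fun c x => by
    apply Ψ.injective
    rw [b0, RingEquiv.apply_symm_apply, RingEquiv.apply_symm_apply]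
  let G : LPA K (⟨s, r⟩ : Gr V E) ≃+* LPA K (⟨s', r'⟩ : Gr V' E') := (Φ.symm.trans θ).trans Ψ
  obtain ⟨F, c0, c1⟩ := RA.main_LPA G
  have hG : ∀ x, G x = Ψ (θ (Φ.symm x)) := fun _ => rfl
  refine ⟨(Φ.trans F).trans Ψ.symm, fun c x => ?_, fun p => ?_, fun x => ?_, fun x => ?_, ?_⟩
  · change Ψ.symm (F (Φ (c • x))) = c • Ψ.symm (F (Φ x))
    rw [a0, c0, b0']
  · change Ψ.symm (F (Φ (v p))) = _
    rw [a1, c1, hG, ← a1, RingEquiv.symm_apply_apply, RingEquiv.symm_apply_apply]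
  · change Ψ.symm (F (Φ (e x))) = _
    rw [a2, c1, hG, ← a2, RingEquiv.symm_apply_apply, RingEquiv.symm_apply_apply]
  · change Ψ.symm (F (Φ (g x))) = _
    rw [a3, c1, hG, ← a3, RingEquiv.symm_apply_apply, RingEquiv.symm_apply_apply]
  · intro iK σ σ' hσ hσ' hθ x
    have hΦ := equiv_inv hσ Φ a0 a1 a2 a3
    have hΨ := equiv_inv hσ' Ψ b0 b1 b2 b3
    have hGs : ∀ y, G (star y) = star (G y) := by
      intro y
      obtain ⟨y, rfl⟩ := Φ.surjective y
      rw [← hΦ, hG, hG, RingEquiv.symm_apply_apply, RingEquiv.symm_apply_apply, hθ, hΨ]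
    have hF := RA.main_LPA_star G hGs F c0 c1
    change Ψ.symm (F (Φ (σ x))) = σ' (Ψ.symm (F (Φ x)))
    apply Ψ.injective
    rw [hΨ, RingEquiv.apply_symm_apply, RingEquiv.apply_symm_apply, hΦ, hF]

theorem transfer [StarRing K] [StarRing A] [StarModule K A] [StarRing A'] [StarModule K A']
    {v : V → A} {e : E → A} (h : IsStarLPA K s r v e) {v' : V' → A'} {e' : E' → A'}
    (h' : IsStarLPA K s' r' v' e') (hA : Nonempty (A ≃+* A'))
    (H : Nonempty (LPA K (⟨s, r⟩ : Gr V E) ≃+* LPA K (⟨s', r'⟩ : Gr V' E')) →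
      Nonempty (LPA K (⟨s, r⟩ : Gr V E) ≃⋆ₐ[K] LPA K (⟨s', r'⟩ : Gr V' E'))) :
    Nonempty (A ≃⋆ₐ[K] A') := by
  obtain ⟨Φ⟩ := starEquiv h
  obtain ⟨Ψ⟩ := starEquiv h'
  obtain ⟨θ⟩ := hA
  have Φ' : A ≃+* LPA K (⟨s, r⟩ : Gr V E) := Φ
  have Ψ' : A' ≃+* LPA K (⟨s', r'⟩ : Gr V' E') := Ψ
  obtain ⟨f⟩ := H ⟨(Φ'.symm.trans θ).trans Ψ'⟩
  exact ⟨(Φ.trans f).trans Ψ.symm⟩

theorem no_exit [StarRing K] [StarRing A] [StarModule K A] [StarRing A'] [StarModule K A']
    (hG : ∀ l, IsCycle s r l → ∀ x ∈ l, ∀ y, s y = s x → y = x)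
    (hC : ∀ p, {x | s x = p}.Countable)
    {v : V → A} {e : E → A} (h : IsStarLPA K s r v e) {v' : V' → A'} {e' : E' → A'}
    (h' : IsStarLPA K s' r' v' e') (hA : Nonempty (A ≃+* A')) : Nonempty (A ≃⋆ₐ[K] A') :=
  transfer h h' hA (main_LPA (G := (⟨s, r⟩ : Gr V E))
    (fun l hl x hx y hy => hG l (isCycle_of hl) x hx y hy) hC)

end two

section three

variable {K : Type k} [Field K] [StarRing K] {V V' : Type a} {E E' : Type b} {s r : E → V}
  {s' r' : E' → V'} [Finite V] [Finite E] [Finite V'] [Finite E']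
  {A : Type w} [NonUnitalRing A] [StarRing A] [Module K A] [StarModule K A]
  [IsScalarTower K A A] [SMulCommClass K A A]
  {A' : Type w'} [NonUnitalRing A'] [StarRing A'] [Module K A'] [StarModule K A']
  [IsScalarTower K A' A'] [SMulCommClass K A' A']

theorem disj
    (hG : ∀ l l', IsCycle s r l → IsCycle s r l' → (∃ x ∈ l, ∃ x' ∈ l', s x = s x') →
      ∀ x' ∈ l', x' ∈ l)
    (hG' : ∀ l l', IsCycle s' r' l → IsCycle s' r' l' → (∃ x ∈ l, ∃ x' ∈ l', s' x = s' x') →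
      ∀ x' ∈ l', x' ∈ l)
    {v : V → A} {e : E → A} (h : IsStarLPA K s r v e) {v' : V' → A'} {e' : E' → A'}
    (h' : IsStarLPA K s' r' v' e') (hA : Nonempty (A ≃+* A')) : Nonempty (A ≃⋆ₐ[K] A') :=
  transfer h h' hA (PG.main_LPA (G := (⟨s, r⟩ : Gr V E)) (G' := (⟨s', r'⟩ : Gr V' E'))
    (fun l l' hl hl' => hG l l' (isCycle_of hl) (isCycle_of hl'))
    (fun l l' hl hl' => hG' l l' (isCycle_of hl) (isCycle_of hl')))

end three

end Pool.Agent.Helper32.LU
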