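import Pool.Agent.Helper44.LT.N10

/-!
PROJECT LT2 (MP_274814_nt), BLOCK N: rational subspaces split when the two types are not conjugate
(no primitivity).
-/

set_option autoImplicit false

namespace Pool.Agent.Helper32.LU

open Pool.Agent.Helper34.LT Pool.Agent.Helper44.LT Polynomial

theorem eu_comp (q u : ℕ) (m b : ℚ[X]) : eu q u (m.comp b) = aeval (eu q u b) m := by
  unfold eu
  rw [aeval_comp]

theorem conj_aux (q : ℕ) (hq : 3 ≤ q) (L : Type) [Field L] [Algebra ℚ L] [NeZero q]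
    [IsCyclotomicExtension {q} ℚ L] (b1 b2 : ℚ[X])
    (h : minpoly ℚ (eu q 1 b1) = minpoly ℚ (eu q 1 b2)) :
    ∃ h, Un q h ∧ eu q 1 b2 = eu q h b1 := by
  have hz : IsPrimitiveRoot (zt q) q := zt_prim q (by omega)
  have hgal : IsGalois ℚ L := IsCyclotomicExtension.isGalois {q} ℚ L
  have hint : Algebra.IsIntegral ℚ L := IsCyclotomicExtension.integral {q} ℚ L
  have halg : Algebra.IsAlgebraic ℚ L := inferInstance
  have hz0 := IsCyclotomicExtension.zeta_spec q ℚ L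
  let φ : L →ₐ[ℚ] ℂ := IsAlgClosed.lift
  have hφ : IsPrimitiveRoot (φ (IsCyclotomicExtension.zeta q ℚ L)) q :=
    hz0.map_of_injective φ.toRingHom.injective
  obtain ⟨j, -, hj, hj1⟩ := (hφ.isPrimitiveRoot_iff).1 hz
  set z : L := IsCyclotomicExtension.zeta q ℚ L ^ j with hzz
  have hz1 : φ z = zt q := by rw [hzz, map_pow, hj1]
  have hzp : IsPrimitiveRoot z q := hz0.pow_of_coprime j hj
  have hx : ∀ b : ℚ[X], eu q 1 b = φ (aeval z b) := by
    intro b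
    unfold eu
    rw [pow_one, ← aeval_algHom_apply, hz1]
  have hm : ∀ b : ℚ[X], minpoly ℚ (eu q 1 b) = minpoly ℚ (aeval z b) := by
    intro b
    rw [hx, minpoly.algHom_eq φ φ.toRingHom.injective]
  have hc2 : IsConjRoot ℚ (aeval z b1) (aeval z b2) := by
    unfold IsConjRoot
    rw [← hm, ← hm, h]
  obtain ⟨σ, hσ⟩ := (isConjRoot_iff_exists_algEquiv).1 hc2.symm
  have hs : IsPrimitiveRoot (σ z) q := hzp.map_of_injective σ.injective
  obtain ⟨i, hi, hic, hi1⟩ := (hzp.isPrimitiveRoot_iff).1 hs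
  refine ⟨i, ⟨?_, hi, hic⟩, ?_⟩
  · by_contra h0
    have h2 : i = 0 := by omega
    rw [h2, Nat.coprime_zero_left] at hic
    omega
  · rw [hx, ← hσ]
    unfold eu
    have e1 : σ (aeval z b1) = aeval (σ z) b1 := by rw [← aeval_algHom_apply]
    rw [e1, ← hi1, ← hz1, ← map_pow, aeval_algHom_apply]

/-- conjugate numbers `b1(ζ)`, `b2(ζ)`: `b2(ζ) = b1(ζ ^ h)` for a unit `h` -/
theorem conj_exists (q : ℕ) (hq : 3 ≤ q) (b1 b2 : ℚ[X])
    (h : minpoly ℚ (eu q 1 b1) = minpoly ℚ (eu q 1 b2)) :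
    ∃ h, Un q h ∧ eu q 1 b2 = eu q h b1 := by
  have hne : NeZero q := ⟨by omega⟩
  have hne' : NeZero ((q : ℕ) : ℚ) := NeZero.charZero
  exact @conj_aux q hq (CyclotomicField q ℚ) _ (CyclotomicField.algebra q ℚ) hne
    (CyclotomicField.isCyclotomicExtension q ℚ) b1 b2 h

theorem eu_integral (q : ℕ) (hq : 3 ≤ q) (u : ℕ) (b : ℚ[X]) : IsIntegral ℚ (eu q u b) := by
  have hz : IsIntegral ℚ (zt q) := ((zt_prim q (by omega)).isIntegral (by omega)).tower_top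
  unfold eu
  exact IsIntegral.of_mem_of_fg (Algebra.adjoin ℚ {zt q ^ u})
    (hz.pow u).fg_adjoin_singleton _ (aeval_mem_adjoin_singleton ℚ (zt q ^ u))

/-- a polynomial which is `1` at all `b1(ζ^u)` and `0` at all `b2(ζ^u)` -/
theorem sep' (q : ℕ) (hq : 3 ≤ q) (b1 b2 : ℚ[X])
    (hn : ∀ h, Un q h → eu q 1 b2 ≠ eu q h b1) :
    ∃ G : ℚ[X], ∀ u, Un q u → eu q u (G.comp b1) = 1 ∧ eu q u (G.comp b2) = 0 := by
  have hi1 := eu_integral q hq 1 b1
  have hi2 := eu_integral q hq 1 b2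
  have hU1 := Un.one q hq
  have hcop : IsCoprime (minpoly ℚ (eu q 1 b1)) (minpoly ℚ (eu q 1 b2)) := by
    rw [Irreducible.coprime_iff_not_dvd (minpoly.irreducible hi1)]
    intro hd
    have he := eq_of_monic_of_associated (minpoly.monic hi1) (minpoly.monic hi2)
      ((minpoly.irreducible hi1).associated_of_dvd (minpoly.irreducible hi2) hd)
    obtain ⟨h, hh, hh2⟩ := conj_exists q hq b1 b2 he
    exact hn h hh hh2
  obtain ⟨A, B, hAB⟩ := hcop
  refine ⟨B * minpoly ℚ (eu q 1 b2), fun u hu => ⟨?_, ?_⟩⟩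
  · have h1 : eu q u ((B * minpoly ℚ (eu q 1 b2)).comp b1 - 1) = 0 := by
      refine ratl q hq _ 1 u hU1 hu ?_
      have h2 : eu q 1 ((B * minpoly ℚ (eu q 1 b2)).comp b1 - 1) =
          aeval (eu q 1 b1) (B * minpoly ℚ (eu q 1 b2) - 1) := by
        rw [← eu_comp, sub_comp, one_comp]
      rw [h2, ← hAB]
      have h3 : B * minpoly ℚ (eu q 1 b2) -
          (A * minpoly ℚ (eu q 1 b1) + B * minpoly ℚ (eu q 1 b2)) =
          - (A * minpoly ℚ (eu q 1 b1)) := by ring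
      rw [h3, map_neg, map_mul, minpoly.aeval, mul_zero, neg_zero]
    rw [eu_sub, eu_one, sub_eq_zero] at h1
    exact h1
  · refine ratl q hq _ 1 u hU1 hu ?_
    rw [eu_comp, map_mul, minpoly.aeval, mul_zero]

theorem congr' (q : ℕ) (s t : Finset ℕ) (hs : CMt q s) (ht : CMt q t)
    (ρ1 : s → ℂ) (ρ2 : t → ℂ) {P P' Q Q' : ℚ[X]}
    (hP : ∀ u, Un q u → eu q u P = eu q u P')
    (hQ : ∀ u, Un q u → eu q u Q = eu q u Q') :
    ptQ q s t ρ1 ρ2 P Q = ptQ q s t ρ1 ρ2 P' Q' := by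
  funext u
  rcases u with u | u
  · have h := hs.rng u u.2
    simp only [ptQ, Sum.elim_inl, hP u h]
  · have h := ht.rng u u.2
    simp only [ptQ, Sum.elim_inr, hQ u h]

/-- all rational polynomials act through `b` -/
theorem comp' (q : ℕ) (s t : Finset ℕ) (ρ1 : s → ℂ) (ρ2 : t → ℂ)
    (H : Submodule ℂ (s ⊕ t → ℂ)) (b1 b2 : ℚ[X])
    (hb : ∀ P Q : ℚ[X], ptQ q s t ρ1 ρ2 P Q ∈ H → ptQ q s t ρ1 ρ2 (b1 * P) (b2 * Q) ∈ H)
    (G P Q : ℚ[X]) (h : ptQ q s t ρ1 ρ2 P Q ∈ H) :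
    ptQ q s t ρ1 ρ2 (G.comp b1 * P) (G.comp b2 * Q) ∈ H := by
  induction G using Polynomial.induction_on generalizing P Q with
  | C a =>
    rw [C_comp, C_comp]
    have : ptQ q s t ρ1 ρ2 (C a * P) (C a * Q) = (a : ℂ) • ptQ q s t ρ1 ρ2 P Q := by
      funext u
      rcases u with u | u
      · simp only [ptQ, Sum.elim_inl, Pi.smul_apply, smul_eq_mul, eu_mul, eu_C]
        ring
      · simp only [ptQ, Sum.elim_inr, Pi.smul_apply, smul_eq_mul, eu_mul, eu_C]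
        ring
    rw [this]
    exact H.smul_mem _ h
  | add p r hp hr =>
    have : ptQ q s t ρ1 ρ2 ((p + r).comp b1 * P) ((p + r).comp b2 * Q) =
        ptQ q s t ρ1 ρ2 (p.comp b1 * P) (p.comp b2 * Q) +
          ptQ q s t ρ1 ρ2 (r.comp b1 * P) (r.comp b2 * Q) := by
      funext u
      rcases u with u | u
      · simp only [ptQ, Sum.elim_inl, Pi.add_apply, eu_mul, add_comp, eu_add]
        ring
      · simp only [ptQ, Sum.elim_inr, Pi.add_apply, eu_mul, add_comp, eu_add]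
        ring
    rw [this]
    exact H.add_mem (hp P Q h) (hr P Q h)
  | monomial n a ih =>
    have h1 := ih (b1 * P) (b2 * Q) (hb P Q h)
    have e1 : (C a * X ^ (n + 1)).comp b1 * P = (C a * X ^ n).comp b1 * (b1 * P) := by
      simp only [mul_comp, C_comp, pow_comp, X_comp]
      ring
    have e2 : (C a * X ^ (n + 1)).comp b2 * Q = (C a * X ^ n).comp b2 * (b2 * Q) := by
      simp only [mul_comp, C_comp, pow_comp, X_comp]
      ring
    rw [e1, e2]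
    exact h1

/-- the coordinates of the first type -/
def prL (s t : Finset ℕ) : (s ⊕ t → ℂ) →ₗ[ℂ] (s ⊕ t → ℂ) where
  toFun x := Sum.elim (fun u => x (Sum.inl u)) (fun _ => 0)
  map_add' x y := by
    funext u
    rcases u with u | u
    · rfl
    · simp
  map_smul' c x := by
    funext u
    rcases u with u | u
    · rfl
    · simp

/-- the coordinates of the second type -/
def prR (s t : Finset ℕ) : (s ⊕ t → ℂ) →ₗ[ℂ] (s ⊕ t → ℂ) where
  toFun x := Sum.elim (fun _ => 0) (fun u => x (Sum.inr u))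
  map_add' x y := by
    funext u
    rcases u with u | u
    · simp
    · rfl
  map_smul' c x := by
    funext u
    rcases u with u | u
    · simp
    · rfl

theorem prL_add_prR (s t : Finset ℕ) (x : s ⊕ t → ℂ) : prL s t x + prR s t x = x := by
  funext u
  rcases u with u | u
  · simp [prL, prR]
  · simp [prL, prR]

/-- rational points split -/
theorem split_pt (q : ℕ) (hq : 3 ≤ q) (s t : Finset ℕ) (hs : CMt q s) (ht : CMt q t)
    (hn : NCj q s t) (ρ1 : s → ℂ) (ρ2 : t → ℂ) (h1 : ∀ u, ρ1 u ≠ 0) (h2 : ∀ u, ρ2 u ≠ 0)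
    (H : Submodule ℂ (s ⊕ t → ℂ)) (hr : RatH q s t ρ1 ρ2 H) (P Q : ℚ[X])
    (h : ptQ q s t ρ1 ρ2 P Q ∈ H) :
    ptQ q s t ρ1 ρ2 P 0 ∈ H ∧ ptQ q s t ρ1 ρ2 0 Q ∈ H := by
  obtain ⟨b1, b2, hb1, hb2, hb⟩ := exists_b q hq s t hs ht ρ1 ρ2 h1 h2 H hr
  obtain ⟨G, hG⟩ := sep' q hq b1 b2 (fun h hh => b_ncj q hq s t hs ht hn b1 b2 hb1 hb2 h hh)
  have hcomp := comp' q s t ρ1 ρ2 H b1 b2 hb
  constructor
  · have h := hcomp G P Q h
    rw [congr' q s t hs ht ρ1 ρ2 (P' := P) (Q' := 0)] at h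
    · exact h
    · intro u hu
      rw [eu_mul, (hG u hu).1, one_mul]
    · intro u hu
      rw [eu_mul, (hG u hu).2, zero_mul, eu_zero]
  · have h := hcomp (1 - G) P Q h
    rw [congr' q s t hs ht ρ1 ρ2 (P' := 0) (Q' := Q)] at h
    · exact h
    · intro u hu
      rw [eu_mul, sub_comp, one_comp, eu_sub, eu_one, (hG u hu).1, sub_self, zero_mul,
        eu_zero]
    · intro u hu
      rw [eu_mul, sub_comp, one_comp, eu_sub, eu_one, (hG u hu).2, sub_zero, one_mul]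

theorem prL_ptQ (q : ℕ) (s t : Finset ℕ) (ρ1 : s → ℂ) (ρ2 : t → ℂ) (P Q : ℚ[X]) :
    prL s t (ptQ q s t ρ1 ρ2 P Q) = ptQ q s t ρ1 ρ2 P 0 := by
  funext u
  rcases u with u | u
  · rfl
  · simp [prL, ptQ, eu_zero]

theorem prR_ptQ (q : ℕ) (s t : Finset ℕ) (ρ1 : s → ℂ) (ρ2 : t → ℂ) (P Q : ℚ[X]) :
    prR s t (ptQ q s t ρ1 ρ2 P Q) = ptQ q s t ρ1 ρ2 0 Q := by
  funext u
  rcases u with u | u
  · simp [prR, ptQ, eu_zero]
  · rfl

/-- a rational subspace is a product when the types are not conjugate -/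
theorem split (q : ℕ) (hq : 3 ≤ q) (s t : Finset ℕ) (hs : CMt q s) (ht : CMt q t)
    (hn : NCj q s t) (ρ1 : s → ℂ) (ρ2 : t → ℂ) (h1 : ∀ u, ρ1 u ≠ 0) (h2 : ∀ u, ρ2 u ≠ 0)
    (H : Submodule ℂ (s ⊕ t → ℂ)) (hr : RatH q s t ρ1 ρ2 H) (x : s ⊕ t → ℂ) (hx : x ∈ H) :
    prL s t x ∈ Submodule.span ℝ {y : s ⊕ t → ℂ | y ∈ H ∧ ∃ P : ℚ[X],
      y = ptQ q s t ρ1 ρ2 P 0} ∧
    prR s t x ∈ Submodule.span ℝ {y : s ⊕ t → ℂ | y ∈ H ∧ ∃ Q : ℚ[X],
      y = ptQ q s t ρ1 ρ2 0 Q} := by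
  have hsp := split_pt q hq s t hs ht hn ρ1 ρ2 h1 h2 H hr
  constructor
  · have h := Submodule.mem_map_of_mem (f := (prL s t).restrictScalars ℝ) (hr x hx)
    rw [Submodule.map_span] at h
    refine Submodule.span_mono ?_ h
    rintro y ⟨z, ⟨hz, P, Q, rfl⟩, rfl⟩
    exact ⟨by
      rw [LinearMap.restrictScalars_apply, prL_ptQ]
      exact (hsp P Q hz).1, P, prL_ptQ q s t ρ1 ρ2 P Q⟩
  · have h := Submodule.mem_map_of_mem (f := (prR s t).restrictScalars ℝ) (hr x hx)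
    rw [Submodule.map_span] at h
    refine Submodule.span_mono ?_ h
    rintro y ⟨z, ⟨hz, P, Q, rfl⟩, rfl⟩
    exact ⟨by
      rw [LinearMap.restrictScalars_apply, prR_ptQ]
      exact (hsp P Q hz).2, Q, prR_ptQ q s t ρ1 ρ2 P Q⟩

theorem split_mem (q : ℕ) (hq : 3 ≤ q) (s t : Finset ℕ) (hs : CMt q s) (ht : CMt q t)
    (hn : NCj q s t) (ρ1 : s → ℂ) (ρ2 : t → ℂ) (h1 : ∀ u, ρ1 u ≠ 0) (h2 : ∀ u, ρ2 u ≠ 0)
    (H : Submodule ℂ (s ⊕ t → ℂ)) (hr : RatH q s t ρ1 ρ2 H) (x : s ⊕ t → ℂ) (hx : x ∈ H) :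
    prL s t x ∈ H ∧ prR s t x ∈ H := by
  obtain ⟨h3, h4⟩ := split q hq s t hs ht hn ρ1 ρ2 h1 h2 H hr x hx
  constructor
  · have h5 : Submodule.span ℝ {y : s ⊕ t → ℂ | y ∈ H ∧ ∃ P : ℚ[X],
        y = ptQ q s t ρ1 ρ2 P 0} ≤ H.restrictScalars ℝ := by
      rw [Submodule.span_le]
      exact fun y hy => hy.1
    exact h5 h3
  · have h5 : Submodule.span ℝ {y : s ⊕ t → ℂ | y ∈ H ∧ ∃ Q : ℚ[X],
        y = ptQ q s t ρ1 ρ2 0 Q} ≤ H.restrictScalars ℝ := by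
      rw [Submodule.span_le]
      exact fun y hy => hy.1
    exact h5 h4

end Pool.Agent.Helper32.LU
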